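import Pool.Agent.J6H13.LR.Pair

/-! Common limit points of the normalised differences `p_(n+r) - p_n`. -/

set_option autoImplicit false

namespace Pool.Agent.J6H13.LR

open Finset Filter Topology

/-- the record scale -/
noncomputable def f (x : ℝ) : ℝ :=
  Real.log x * (Real.log (Real.log x)) ^ 2 * Real.log (Real.log (Real.log (Real.log x))) /
    (Real.log (Real.log (Real.log x))) ^ 2

/-- `v` is a limit point of `(p_(n+r+1) - p_n) / h (p_n)`, for the `n` with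
`p_n ≡ ... ≡ p_(n+r+1) ≡ a (mod q)` -/
def LimPt (h : ℝ → ℝ) (q a r : ℕ) (v : ℝ) : Prop :=
  ∀ ε : ℝ, 0 < ε → ∃ᶠ n : ℕ in atTop, (∀ i ≤ r + 1, Nat.nth Nat.Prime (n + i) ≡ a [MOD q]) ∧
    |((Nat.nth Nat.Prime (n + r + 1) : ℝ) - Nat.nth Nat.Prime n) / h (Nat.nth Nat.Prime n) - v| < ε

/-- the starting theorem on points in record windows, for a given `η` -/
def Points (η : ℝ) : Prop := ∀ m : ℕ, 1 ≤ m → ∃ c : ℝ, 0 < c ∧ ∀ δ : ℝ, 0 < δ →
    ∀ q a : ℕ, Squarefree q → a.Coprime q → ∃ X₀ : ℝ, ∀ X : ℝ, X₀ ≤ X → ∀ H : ℝ, Real.log X ≤ H →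
      H ≤ c * f X → ∀ b : Fin m → ℝ, (∀ i, 0 ≤ b i ∧ b i ≤ 1) →
      X ^ (7 / 8 : ℝ) ≤ ({n : ℕ | X < n ∧ (n : ℝ) ≤ 4 * X ∧
        (∀ p : ℕ, p.Prime → (n : ℝ) ≤ p → (p : ℝ) ≤ n + H →
          p ≡ a [MOD q] ∧ ∃ i, |((p : ℝ) - n) / H - b i| ≤ δ) ∧
        ∃ J : Finset (Fin m), η * m ≤ J.card ∧
          ∀ i ∈ J, ∃ p : ℕ, p.Prime ∧ p ≡ a [MOD q] ∧ |((p : ℝ) - n) / H - b i| ≤ δ}.ncard : ℝ)

theorem isClosed_limPt (h : ℝ → ℝ) (q a r : ℕ) : IsClosed {v | LimPt h q a r v} := by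
  rw [← isOpen_compl_iff, Metric.isOpen_iff]
  intro v hv
  have hv' : ¬ LimPt h q a r v := hv
  unfold LimPt at hv'
  push Not at hv'
  obtain ⟨ε, hε, hv'⟩ := hv'
  refine ⟨ε / 2, by positivity, fun w hw => ?_⟩
  have hw' : |w - v| < ε / 2 := by
    have := Metric.mem_ball.1 hw
    rwa [Real.dist_eq] at this
  intro hlim
  have h1 := hlim (ε / 2) (by positivity)
  refine h1 ?_
  filter_upwards [hv'] with n hn hn2
  have h3 := hn hn2.1
  have h4 := hn2.2
  rw [abs_lt] at h4 hw'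
  have h5 : |((Nat.nth Nat.Prime (n + r + 1) : ℝ) - Nat.nth Nat.Prime n) / h (Nat.nth Nat.Prime n) - v| < ε := by
    rw [abs_lt]
    constructor <;> linarith [h4.1, h4.2, hw'.1, hw'.2]
  linarith

/-- consecutive primes from a count -/
theorem nth_of_count (p p' r : ℕ) (hp : p.Prime) (hp' : p'.Prime) (hpp : p < p')
    (hr : ((Ioo p p').filter Nat.Prime).card = r) :
    Nat.nth Nat.Prime (Nat.count Nat.Prime p) = p ∧
      Nat.nth Nat.Prime (Nat.count Nat.Prime p + r + 1) = p' := by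
  refine ⟨Nat.nth_count hp, ?_⟩
  have h1 : Nat.count Nat.Prime p' = Nat.count Nat.Prime p + r + 1 := by
    rw [Nat.count_eq_card_filter_range, Nat.count_eq_card_filter_range]
    have h2 : (range p').filter Nat.Prime = ((range p).filter Nat.Prime) ∪
        ({p} ∪ (Ioo p p').filter Nat.Prime) := by
      ext x
      simp only [mem_filter, mem_range, mem_union, mem_singleton, mem_Ioo]
      constructor
      · rintro ⟨h3, h4⟩
        rcases lt_trichotomy x p with h5 | h5 | h5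
        · exact Or.inl ⟨h5, h4⟩
        · exact Or.inr (Or.inl h5)
        · exact Or.inr (Or.inr ⟨⟨h5, h3⟩, h4⟩)
      · rintro (⟨h3, h4⟩ | rfl | ⟨⟨h3, h4⟩, h5⟩)
        · exact ⟨by omega, h4⟩
        · exact ⟨hpp, hp⟩
        · exact ⟨h4, h5⟩
    rw [h2, card_union_of_disjoint, card_union_of_disjoint, card_singleton, hr]
    · ring
    · rw [disjoint_left]
      intro x hx hx2
      rw [mem_singleton] at hx
      have := (mem_Ioo.1 (mem_filter.1 hx2).1).1
      omega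
    · rw [disjoint_left]
      intro x hx hx2
      have h3 := mem_range.1 (mem_filter.1 hx).1
      rcases mem_union.1 hx2 with h4 | h4
      · rw [mem_singleton] at h4
        omega
      · have := (mem_Ioo.1 (mem_filter.1 h4).1).1
        omega
  rw [← h1]
  exact Nat.nth_count hp'

/-- the combinatorial step in one window -/
theorem window {s M k : ℕ} (hM : 1 ≤ M) {η t θ Λ δ H : ℝ} {q a n : ℕ} (hs : 1 < η * s)
    (hsM : (s * (k + 1) : ℝ) ≤ η * (s * M)) (hθ : 0 < θ) (hΛ : Λ = s * t + 1) (hδ : δ = θ / (4 * Λ))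
    (hMθ : 8 * (M * θ) ≤ t) (hMθ' : 8 * (M * θ) ≤ 1) (hH : 0 < H)
    (h1 : ∀ p : ℕ, p.Prime → (n : ℝ) ≤ p → (p : ℝ) ≤ n + H →
          p ≡ a [MOD q] ∧ ∃ i : Fin (s * M), |((p : ℝ) - n) / H -
            (((finProdFinEquiv.symm i).1 : ℕ) * t + (((finProdFinEquiv.symm i).2 : ℕ) + 1) * θ) / Λ| ≤ δ)
    (J : Finset (Fin (s * M))) (hJ : η * (s * M) ≤ J.card)
    (h2 : ∀ i ∈ J, ∃ p : ℕ, p.Prime ∧ p ≡ a [MOD q] ∧ |((p : ℝ) - n) / H -
            (((finProdFinEquiv.symm i).1 : ℕ) * t + (((finProdFinEquiv.symm i).2 : ℕ) + 1) * θ) / Λ| ≤ δ)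
    (col : Fin s → Fin s → Fin (k + 1)) :
    ∃ i j : Fin s, i < j ∧ ∃ p p' : ℕ, p.Prime ∧ p'.Prime ∧ (n : ℝ) ≤ p ∧ (p' : ℝ) ≤ n + H ∧ p < p' ∧
      ((Ioo p p').filter Nat.Prime).card = (col i j : ℕ) ∧
      |((p' : ℝ) - p) / H - (((j : ℕ) : ℝ) - ((i : ℕ) : ℝ)) * t / Λ| ≤ (M * θ) / Λ + 2 * δ := by
  classical
  obtain ⟨b, hb⟩ : ∃ b : Fin (s * M) → ℝ, b = fun i =>
      (((finProdFinEquiv.symm i).1 : ℕ) * t + (((finProdFinEquiv.symm i).2 : ℕ) + 1) * θ) / Λ := ⟨_, rfl⟩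
  have hb' : ∀ i, b i = (((finProdFinEquiv.symm i).1 : ℕ) * t +
      (((finProdFinEquiv.symm i).2 : ℕ) + 1) * θ) / Λ := fun i => by rw [hb]
  simp only [← hb'] at h1 h2
  have hM1 : (1 : ℝ) ≤ M := by exact_mod_cast hM
  have hMθ0 : θ ≤ M * θ := by nlinarith
  have ht : 0 < t := by linarith
  have hs0 : 0 < s := by
    rcases Nat.eq_zero_or_pos s with h | h
    · rw [h] at hs
      norm_num at hs
    · exact h
  have hs1 : (1 : ℝ) ≤ s := by exact_mod_cast hs0
  have hst : t ≤ s * t := by nlinarith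
  have hΛ0 : 0 < Λ := by rw [hΛ]; linarith
  have hδ0 : 0 < δ := by rw [hδ]; positivity
  have hδΛ : δ * Λ = θ / 4 := by rw [hδ]; field_simp
  have hlin : ∀ i : Fin (s * M), θ ≤ (((finProdFinEquiv.symm i).2 : ℕ) + 1) * θ ∧
      (((finProdFinEquiv.symm i).2 : ℕ) + 1) * θ ≤ M * θ := by
    intro i
    have h3 : (0 : ℝ) ≤ ((finProdFinEquiv.symm i).2 : ℕ) := Nat.cast_nonneg _
    have h4 : (((finProdFinEquiv.symm i).2 : ℕ) : ℝ) + 1 ≤ M := by
      have := (finProdFinEquiv.symm i).2.2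
      exact_mod_cast this
    exact ⟨by nlinarith, mul_le_mul_of_nonneg_right h4 hθ.le⟩
  have hbΛ : ∀ i, b i * Λ = ((finProdFinEquiv.symm i).1 : ℕ) * t +
      (((finProdFinEquiv.symm i).2 : ℕ) + 1) * θ := fun i => by
    rw [hb', div_mul_cancel₀ _ hΛ0.ne']
  -- separation of the points
  have hsep : ∀ i j : Fin (s * M), (finProdFinEquiv.symm i).1 < (finProdFinEquiv.symm j).1 →
      (((finProdFinEquiv.symm j).1 : ℕ) - (((finProdFinEquiv.symm i).1 : ℕ) : ℝ)) * t - M * θ + θ ≤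
        (b j - b i) * Λ := by
    intro i j _
    rw [sub_mul (b j), hbΛ, hbΛ]
    have h3 := hlin i
    have h4 := hlin j
    linarith [h3.2, h4.1]
  have hsep2 : ∀ i j : Fin (s * M), i ≠ j → 2 * δ < |b i - b j| := by
    intro i j hij
    have key : ∀ i j : Fin (s * M), (finProdFinEquiv.symm i).1 < (finProdFinEquiv.symm j).1 →
        2 * δ < |b i - b j| := by
      intro i j h3
      have h4 := hsep i j h3
      have h5 : (1 : ℝ) ≤ ((finProdFinEquiv.symm j).1 : ℕ) - (((finProdFinEquiv.symm i).1 : ℕ) : ℝ) := by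
        have h6 : ((finProdFinEquiv.symm i).1 : ℕ) + 1 ≤ ((finProdFinEquiv.symm j).1 : ℕ) := h3
        have h7 : (((finProdFinEquiv.symm i).1 : ℕ) : ℝ) + 1 ≤ ((finProdFinEquiv.symm j).1 : ℕ) := by
          exact_mod_cast h6
        linarith
      have h8 : t ≤ (((finProdFinEquiv.symm j).1 : ℕ) - (((finProdFinEquiv.symm i).1 : ℕ) : ℝ)) * t := by
        nlinarith
      have h9 : 2 * δ * Λ < (b j - b i) * Λ := by
        have : 2 * δ * Λ = θ / 2 := by linarith
        linarith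
      have h10 := lt_of_mul_lt_mul_right h9 hΛ0.le
      rw [abs_sub_comm]
      exact lt_of_lt_of_le h10 (le_abs_self _)
    rcases lt_trichotomy (finProdFinEquiv.symm i).1 (finProdFinEquiv.symm j).1 with h3 | h3 | h3
    · exact key i j h3
    · have h4 : (finProdFinEquiv.symm i).2 ≠ (finProdFinEquiv.symm j).2 := fun h4 =>
        hij (finProdFinEquiv.symm.injective (Prod.ext h3 h4))
      have h5 : (1 : ℝ) ≤ |(((finProdFinEquiv.symm i).2 : ℕ) : ℝ) - ((finProdFinEquiv.symm j).2 : ℕ)| := by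
        have h6 : (((finProdFinEquiv.symm i).2 : ℕ) : ℤ) - ((finProdFinEquiv.symm j).2 : ℕ) ≠ 0 := by
          intro h7
          apply h4
          apply Fin.ext
          omega
        have h7 := Int.one_le_abs h6
        exact_mod_cast h7
      have h6 : (b i - b j) * Λ = ((((finProdFinEquiv.symm i).2 : ℕ) : ℝ) -
          ((finProdFinEquiv.symm j).2 : ℕ)) * θ := by
        rw [sub_mul (b i), hbΛ, hbΛ, h3]
        ring
      have h7 : θ ≤ |b i - b j| * Λ := by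
        have h8 : |b i - b j| * Λ = |(b i - b j) * Λ| := by
          rw [abs_mul, abs_of_pos hΛ0]
        rw [h8, h6, abs_mul, abs_of_pos hθ]
        nlinarith
      have h9 : 2 * δ * Λ < |b i - b j| * Λ := by
        have : 2 * δ * Λ = θ / 2 := by linarith
        linarith
      exact lt_of_mul_lt_mul_right h9 hΛ0.le
    · rw [abs_sub_comm]
      exact key j i h3
  have huniq : ∀ (x : ℝ) (i j : Fin (s * M)), |x - b i| ≤ δ → |x - b j| ≤ δ → i = j := by
    intro x i j h3 h4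
    by_contra hij
    have h5 := hsep2 i j hij
    have h6 : |b i - b j| ≤ |x - b i| + |x - b j| := by
      have : b i - b j = (x - b j) - (x - b i) := by ring
      rw [this]
      calc |(x - b j) - (x - b i)| ≤ |x - b j| + |x - b i| := abs_sub _ _
        _ = _ := add_comm _ _
    linarith
  -- the primes of the window
  obtain ⟨P, hP⟩ : ∃ P, P = (Icc n ⌊(n : ℝ) + H⌋₊).filter Nat.Prime := ⟨_, rfl⟩
  have hnH : (0 : ℝ) ≤ n + H := by
    have : (0 : ℝ) ≤ n := Nat.cast_nonneg _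
    linarith
  have hmemP : ∀ p, p ∈ P ↔ p.Prime ∧ (n : ℝ) ≤ p ∧ (p : ℝ) ≤ n + H := by
    intro p
    rw [hP, mem_filter, mem_Icc, Nat.le_floor_iff hnH]
    constructor
    · rintro ⟨⟨h3, h4⟩, h5⟩
      exact ⟨h5, by exact_mod_cast h3, h4⟩
    · rintro ⟨h3, h4, h5⟩
      exact ⟨⟨by exact_mod_cast h4, h5⟩, h3⟩
  have hidx : ∀ p : ℕ, ∃ i : Fin (s * M), p ∈ P → |((p : ℝ) - n) / H - b i| ≤ δ := by
    intro p
    by_cases h3 : p ∈ P
    · obtain ⟨h4, h5, h6⟩ := (hmemP p).1 h3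
      obtain ⟨-, i, hi⟩ := h1 p h4 h5 h6
      exact ⟨i, fun _ => hi⟩
    · exact ⟨⟨0, Nat.mul_pos hs0 hM⟩, fun h => absurd h h3⟩
  choose e he using hidx
  choose! w hw1 hw2 hw3 using h2
  have hrange : ∀ i ∈ J, w i ∈ P := by
    intro i hi
    rw [hmemP]
    have h3 := hw3 i hi
    rw [abs_le] at h3
    have h4 := hlin i
    have h5 : (0 : ℝ) ≤ ((finProdFinEquiv.symm i).1 : ℕ) * t := by positivity
    have h6 : (((finProdFinEquiv.symm i).1 : ℕ) : ℝ) * t ≤ (s - 1) * t := by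
      apply mul_le_mul_of_nonneg_right _ ht.le
      have h7 : ((finProdFinEquiv.symm i).1 : ℕ) + 1 ≤ s := (finProdFinEquiv.symm i).1.2
      have h8 : (((finProdFinEquiv.symm i).1 : ℕ) : ℝ) + 1 ≤ s := by exact_mod_cast h7
      linarith
    have h7 := hbΛ i
    have h8 : δ ≤ b i := by
      apply le_of_mul_le_mul_right _ hΛ0
      rw [h7, hδΛ]
      linarith [h4.1]
    have h9 : b i + δ ≤ 1 := by
      apply le_of_mul_le_mul_right _ hΛ0
      rw [add_mul, h7, hδΛ, one_mul, hΛ]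
      nlinarith [h4.2]
    refine ⟨hw1 i hi, ?_, ?_⟩
    · have h10 : 0 ≤ ((w i : ℝ) - n) / H := by linarith [h3.1]
      have h11 := mul_nonneg h10 hH.le
      rw [div_mul_cancel₀ _ hH.ne'] at h11
      linarith
    · have h10 : ((w i : ℝ) - n) / H ≤ 1 := by linarith [h3.2]
      rw [div_le_one hH] at h10
      linarith
  have hew : ∀ i ∈ J, e (w i) = i := fun i hi =>
    huniq _ _ _ (he _ (hrange i hi)) (hw3 i hi)
  have hJP : J.card ≤ P.card := by
    apply card_le_card_of_injOn w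
    · intro i hi
      exact mem_coe.2 (hrange i (mem_coe.1 hi))
    · intro i hi j hj hij
      rw [← hew i (mem_coe.1 hi), ← hew j (mem_coe.1 hj), hij]
  have hPc : s * (k + 1) ≤ P.card := by
    have h3 : ((s * (k + 1) : ℕ) : ℝ) ≤ P.card := by
      push_cast
      have h4 : (J.card : ℝ) ≤ P.card := by exact_mod_cast hJP
      linarith
    exact_mod_cast h3
  obtain ⟨gr, hgr⟩ : ∃ gr : ℕ → Fin s, gr = fun p => (finProdFinEquiv.symm (e p)).1 := ⟨_, rfl⟩
  have hcross : ∀ u ∈ P, ∀ v ∈ P, gr u < gr v → u < v := by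
    intro u hu v hv huv
    rw [hgr] at huv
    have h3 := he u hu
    have h4 := he v hv
    have h5 := hsep (e u) (e v) huv
    have h6 : (1 : ℝ) ≤ ((finProdFinEquiv.symm (e v)).1 : ℕ) - (((finProdFinEquiv.symm (e u)).1 : ℕ) : ℝ) := by
      have h6 : ((finProdFinEquiv.symm (e u)).1 : ℕ) + 1 ≤ ((finProdFinEquiv.symm (e v)).1 : ℕ) := huv
      have h7 : (((finProdFinEquiv.symm (e u)).1 : ℕ) : ℝ) + 1 ≤ ((finProdFinEquiv.symm (e v)).1 : ℕ) := by
        exact_mod_cast h6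
      linarith
    have h8 : t ≤ (((finProdFinEquiv.symm (e v)).1 : ℕ) -
        (((finProdFinEquiv.symm (e u)).1 : ℕ) : ℝ)) * t := by nlinarith
    have h9 : 2 * δ * Λ < (b (e v) - b (e u)) * Λ := by
      have : 2 * δ * Λ = θ / 2 := by linarith
      linarith
    have h10 := lt_of_mul_lt_mul_right h9 hΛ0.le
    rw [abs_le] at h3 h4
    have h11 : ((u : ℝ) - n) / H < ((v : ℝ) - n) / H := by linarith [h3.2, h4.1]
    rw [div_lt_div_iff_of_pos_right hH] at h11
    have h12 : (u : ℝ) < v := by linarith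
    exact_mod_cast h12
  have htwo : ∃ u ∈ P, ∃ v ∈ P, gr u < gr v := by
    by_contra hcon
    push Not at hcon
    have h3 : ∀ i ∈ J, ∀ j ∈ J, (finProdFinEquiv.symm i).1 = (finProdFinEquiv.symm j).1 := by
      intro i hi j hj
      have h4 := hcon (w i) (hrange i hi) (w j) (hrange j hj)
      have h5 := hcon (w j) (hrange j hj) (w i) (hrange i hi)
      have h6 := le_antisymm h5 h4
      rw [hgr] at h6
      simp only [hew i hi, hew j hj] at h6
      exact h6
    have h4 : J.card ≤ (univ : Finset (Fin M)).card := by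
      apply card_le_card_of_injOn (fun i => (finProdFinEquiv.symm i).2)
      · intro i _
        exact mem_coe.2 (mem_univ _)
      · intro i hi j hj hij
        exact finProdFinEquiv.symm.injective (Prod.ext (h3 i (mem_coe.1 hi) j (mem_coe.1 hj)) hij)
    rw [card_univ, Fintype.card_fin] at h4
    have h5 : (J.card : ℝ) ≤ M := by exact_mod_cast h4
    nlinarith
  obtain ⟨p, hp, p', hp', hpp, hcount⟩ := pair_between P gr hcross hPc htwo col
  obtain ⟨hp1, hp2, hp3⟩ := (hmemP p).1 hp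
  obtain ⟨hp1', hp2', hp3'⟩ := (hmemP p').1 hp'
  have hlt := hcross p hp p' hp' hpp
  refine ⟨gr p, gr p', hpp, p, p', hp1, hp1', hp2, hp3', hlt, ?_, ?_⟩
  · rw [← hcount]
    congr 1
    ext u
    rw [mem_filter, mem_filter, mem_Ioo, hmemP]
    constructor
    · rintro ⟨⟨h3, h4⟩, h5⟩
      have h6 : (p : ℝ) ≤ u := by exact_mod_cast h3.le
      have h7 : (u : ℝ) ≤ p' := by exact_mod_cast h4.le
      exact ⟨⟨h5, by linarith, by linarith⟩, h3, h4⟩
    · rintro ⟨⟨h3, -, -⟩, h4, h5⟩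
      exact ⟨⟨h4, h5⟩, h3⟩
  · have h3 := he p hp
    have h4 := he p' hp'
    have h5 : b (e p') - b (e p) - (((gr p' : ℕ) : ℝ) - ((gr p : ℕ) : ℝ)) * t / Λ =
        ((((finProdFinEquiv.symm (e p')).2 : ℕ) + 1) * θ - (((finProdFinEquiv.symm (e p)).2 : ℕ) + 1) * θ) /
          Λ := by
      rw [hb', hb', hgr]
      ring
    have h6 : |b (e p') - b (e p) - (((gr p' : ℕ) : ℝ) - ((gr p : ℕ) : ℝ)) * t / Λ| ≤ M * θ / Λ := by
      rw [h5, abs_div, abs_of_pos hΛ0]
      apply div_le_div_of_nonneg_right _ hΛ0.le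
      have h7 := hlin (e p)
      have h8 := hlin (e p')
      rw [abs_le]
      constructor <;> linarith [h7.1, h7.2, h8.1, h8.2]
    have h7 : ((p' : ℝ) - p) / H = ((p' : ℝ) - n) / H - ((p : ℝ) - n) / H := by ring
    rw [h7]
    rw [abs_le] at h3 h4 h6 ⊢
    constructor <;> linarith [h3.1, h3.2, h4.1, h4.2, h6.1, h6.2]

end Pool.Agent.J6H13.LR
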