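import Pool.Agent.J6H13.LR.Lim

/-! Common limit points of the normalised differences `p_(n+r) - p_n`, all `r`. -/

set_option autoImplicit false

namespace Pool.Agent.J6H13.LR

open Finset Filter Topology

theorem f_pos : ∀ᶠ x : ℝ in atTop, 0 < f x := by
  have h1 := Real.tendsto_log_atTop
  have h2 := h1.comp h1
  have h3 := h1.comp h2
  have h4 := h1.comp h3
  filter_upwards [h1.eventually_gt_atTop 0, h2.eventually_gt_atTop 0, h3.eventually_gt_atTop 0,
    h4.eventually_gt_atTop 0] with x a1 a2 a3 a4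
  simp only [Function.comp] at a2 a3 a4
  unfold f
  positivity

theorem f_le : ∀ᶠ x : ℝ in atTop, f x ≤ Real.log x ^ 4 := by
  have h1 := Real.tendsto_log_atTop
  have h2 := h1.comp h1
  have h3 := h1.comp h2
  have h4 := h1.comp h3
  filter_upwards [h1.eventually_gt_atTop 0, h2.eventually_gt_atTop 0, h3.eventually_gt_atTop 1,
    h4.eventually_gt_atTop 0] with x a1 a2 a3 a4
  simp only [Function.comp] at a2 a3 a4
  have b1 : Real.log (Real.log x) ≤ Real.log x := Real.log_le_self a1.le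
  have b2 : Real.log (Real.log (Real.log x)) ≤ Real.log (Real.log x) := Real.log_le_self a2.le
  have b3 : Real.log (Real.log (Real.log (Real.log x))) ≤ Real.log (Real.log (Real.log x)) :=
    Real.log_le_self (by linarith)
  unfold f
  calc Real.log x * (Real.log (Real.log x)) ^ 2 * Real.log (Real.log (Real.log (Real.log x))) /
        (Real.log (Real.log (Real.log x))) ^ 2
      ≤ Real.log x * (Real.log (Real.log x)) ^ 2 * Real.log (Real.log (Real.log (Real.log x))) := by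
        apply div_le_self (by positivity)
        nlinarith
    _ ≤ Real.log x * (Real.log x) ^ 2 * Real.log x :=
        mul_le_mul (mul_le_mul_of_nonneg_left (pow_le_pow_left₀ a2.le b1 2) a1.le) (by linarith) a4.le
          (by positivity)
    _ = Real.log x ^ 4 := by ring

theorem log_pow_small (A : ℝ) : ∀ᶠ x : ℝ in atTop, A * Real.log x ^ 4 ≤ x := by
  have h1 : (fun x : ℝ => Real.log x ^ 4) =o[atTop] (fun x : ℝ => x) := Real.isLittleO_pow_log_id_atTop
  have h2 := h1.def (c := 1 / (|A| + 1)) (by positivity)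
  filter_upwards [h2, eventually_gt_atTop (0 : ℝ)] with x hx hx0
  rw [Real.norm_eq_abs, Real.norm_eq_abs, abs_of_pos hx0, abs_of_nonneg (by positivity)] at hx
  have h3 : (|A| + 1) * Real.log x ^ 4 ≤ x := by
    calc (|A| + 1) * Real.log x ^ 4 ≤ (|A| + 1) * (1 / (|A| + 1) * x) :=
          mul_le_mul_of_nonneg_left hx (by positivity)
      _ = x := by field_simp
  have h4 : A * Real.log x ^ 4 ≤ (|A| + 1) * Real.log x ^ 4 := by
    apply mul_le_mul_of_nonneg_right _ (by positivity)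
    linarith [le_abs_self A]
  linarith

/-- the scales above the average gap -/
structure Scale (h : ℝ → ℝ) : Prop where
  mono : ∃ x₀ : ℝ, MonotoneOn h (Set.Ici x₀)
  log_le : ∀ᶠ x : ℝ in atTop, Real.log x ≤ h x
  slow : Tendsto (fun x => h (5 * x) / h x) atTop (𝓝 1)

theorem key {η : ℝ} (hη : 0 < η) (hP : Points η) (s : ℕ) (hs : 1 < η * s) (k : ℕ) :
    ∃ c : ℝ, 0 < c ∧ ∀ h : ℝ → ℝ, Scale h → ∀ t : ℝ, 0 < t →
      (∀ᶠ x : ℝ in atTop, (s * t + 1) * h x ≤ c * f x) → ∀ q a : ℕ, Squarefree q → a.Coprime q →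
    ∃ l : ℕ, 1 ≤ l ∧ l ≤ s ∧ (l : ℝ) * t ∈ {v | ∀ r ≤ k, LimPt h q a r v} := by
  classical
  have hs0 : 0 < s := by
    rcases Nat.eq_zero_or_pos s with h1 | h1
    · rw [h1] at hs
      norm_num at hs
    · exact h1
  have hs1 : (1 : ℝ) ≤ s := by exact_mod_cast hs0
  obtain ⟨M, hM⟩ := exists_nat_ge (((k : ℝ) + 1) / η + 1)
  have hk0 : (0 : ℝ) ≤ ((k : ℝ) + 1) / η := by positivity
  have hM1 : 1 ≤ M := by
    have : (1 : ℝ) ≤ M := by linarith
    exact_mod_cast this
  have hM1R : (1 : ℝ) ≤ M := by exact_mod_cast hM1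
  have hkM : (k : ℝ) + 1 ≤ η * M := by
    have h1 : ((k : ℝ) + 1) / η ≤ M := by linarith
    rw [div_le_iff₀ hη] at h1
    linarith
  have hsM : (s * (k + 1) : ℝ) ≤ η * (s * M) := by
    calc (s * (k + 1) : ℝ) ≤ s * (η * M) := mul_le_mul_of_nonneg_left hkM (by positivity)
      _ = _ := by ring
  obtain ⟨c, hc, hPc⟩ := hP (s * M) (Nat.mul_pos hs0 hM1)
  refine ⟨c, hc, fun h hh t ht hsmall q a hq ha => ?_⟩
  by_contra hcon
  push Not at hcon
  have hbad : ∀ l : ℕ, ∃ r : Fin (k + 1), ∃ ε : ℝ, 0 < ε ∧ (1 ≤ l → l ≤ s → ∀ᶠ n : ℕ in atTop,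
      ¬ ((∀ i ≤ (r : ℕ) + 1, Nat.nth Nat.Prime (n + i) ≡ a [MOD q]) ∧
        |((Nat.nth Nat.Prime (n + r + 1) : ℝ) - Nat.nth Nat.Prime n) / h (Nat.nth Nat.Prime n) - l * t| <
          ε)) := by
    intro l
    by_cases hl : 1 ≤ l ∧ l ≤ s
    · have h1 := hcon l hl.1 hl.2
      have h2 : ¬ ∀ r ≤ k, LimPt h q a r (l * t) := h1
      push Not at h2
      obtain ⟨r, hr, h3⟩ := h2
      unfold LimPt at h3
      push Not at h3
      obtain ⟨ε, hε, h4⟩ := h3
      refine ⟨⟨r, Nat.lt_succ_of_le hr⟩, ε, hε, fun _ _ => ?_⟩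
      filter_upwards [h4] with n hn hn2
      exact absurd hn2.2 (not_lt.2 (hn hn2.1))
    · exact ⟨0, 1, one_pos, fun h1 h2 => absurd ⟨h1, h2⟩ hl⟩
  choose r ε hε hbad using hbad
  obtain ⟨l₀, -, hl₀⟩ := exists_min_image (range (s + 1)) ε ⟨0, mem_range.2 (Nat.succ_pos _)⟩
  obtain ⟨e, he⟩ : ∃ e, e = ε l₀ := ⟨_, rfl⟩
  have he0 : 0 < e := by rw [he]; exact hε _
  have hel : ∀ l ≤ s, e ≤ ε l := fun l hl => by
    rw [he]
    exact hl₀ l (mem_range.2 (Nat.lt_succ_of_le hl))
  obtain ⟨θ, hθdef⟩ : ∃ θ, θ = min e (min t 1) / (8 * (M + 1)) := ⟨_, rfl⟩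
  have hmin0 : 0 < min e (min t 1) := lt_min he0 (lt_min ht one_pos)
  have hθ : 0 < θ := by rw [hθdef]; positivity
  have hθM : 8 * ((M + 1) * θ) = min e (min t 1) := by
    rw [hθdef]
    field_simp
  have hMe : 8 * ((M + 1) * θ) ≤ e := by rw [hθM]; exact min_le_left _ _
  have hMt : 8 * ((M + 1) * θ) ≤ t := by
    rw [hθM]; exact (min_le_right _ _).trans (min_le_left _ _)
  have hM1' : 8 * ((M + 1) * θ) ≤ 1 := by
    rw [hθM]; exact (min_le_right _ _).trans (min_le_right _ _)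
  have hMθe : (M + 1) * θ = M * θ + θ := by ring
  have hMθs : M * θ ≤ (M + 1) * θ := by linarith
  obtain ⟨Λ, hΛ⟩ : ∃ Λ, Λ = s * t + 1 := ⟨_, rfl⟩
  have hst0 : 0 < s * t := by positivity
  have hΛ1 : 1 ≤ Λ := by rw [hΛ]; linarith
  have hΛ0 : 0 < Λ := by linarith
  obtain ⟨δ, hδ⟩ : ∃ δ, δ = θ / (4 * Λ) := ⟨_, rfl⟩
  have hδ0 : 0 < δ := by rw [hδ]; positivity
  have hδΛ : δ * Λ = θ / 4 := by rw [hδ]; field_simp
  obtain ⟨X₀, hX₀⟩ := hPc δ hδ0 q a hq ha
  obtain ⟨b, hb⟩ : ∃ b : Fin (s * M) → ℝ, b = fun i =>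
      (((finProdFinEquiv.symm i).1 : ℕ) * t + (((finProdFinEquiv.symm i).2 : ℕ) + 1) * θ) / Λ := ⟨_, rfl⟩
  have hb01 : ∀ i, 0 ≤ b i ∧ b i ≤ 1 := by
    intro i
    rw [hb]
    have h4 : (((finProdFinEquiv.symm i).2 : ℕ) : ℝ) + 1 ≤ M := by
      have := (finProdFinEquiv.symm i).2.2
      exact_mod_cast this
    have h5 : (((finProdFinEquiv.symm i).1 : ℕ) : ℝ) ≤ s := by
      have := (finProdFinEquiv.symm i).1.2.le
      exact_mod_cast this
    refine ⟨by positivity, ?_⟩
    show (((finProdFinEquiv.symm i).1 : ℕ) * t + (((finProdFinEquiv.symm i).2 : ℕ) + 1) * θ) / Λ ≤ 1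
    rw [div_le_one hΛ0, hΛ]
    have h6 : (((finProdFinEquiv.symm i).1 : ℕ) : ℝ) * t ≤ s * t := mul_le_mul_of_nonneg_right h5 ht.le
    have h7 : ((((finProdFinEquiv.symm i).2 : ℕ) : ℝ) + 1) * θ ≤ M * θ := mul_le_mul_of_nonneg_right h4 hθ.le
    linarith
  obtain ⟨N, hN⟩ : ∃ N : ℕ, ∀ n ≥ N, ∀ l ∈ Icc 1 s,
      ¬ ((∀ i ≤ (r l : ℕ) + 1, Nat.nth Nat.Prime (n + i) ≡ a [MOD q]) ∧
        |((Nat.nth Nat.Prime (n + r l + 1) : ℝ) - Nat.nth Nat.Prime n) / h (Nat.nth Nat.Prime n) - l * t| <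
          ε l) := by
    apply eventually_atTop.1
    rw [Filter.eventually_all_finset]
    intro l hl
    exact hbad l (mem_Icc.1 hl).1 (mem_Icc.1 hl).2
  obtain ⟨x₀, hmono⟩ := hh.mono
  rw [← hΛ] at hsmall
  have e2 : ∀ᶠ x : ℝ in atTop, h (5 * x) / h x < 1 + e / (8 * Λ) :=
    hh.slow.eventually_lt_const (by
      have : 0 < e / (8 * Λ) := by positivity
      linarith)
  obtain ⟨X, hx1, hx2, hx3, hx4, hx5, hx6, hx7, hx8, hx9⟩ := (hsmall.and (e2.and (hh.log_le.and (f_pos.and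
    (f_le.and ((log_pow_small c).and ((eventually_ge_atTop (max X₀ x₀)).and
      ((eventually_ge_atTop (3 : ℝ)).and (eventually_ge_atTop ((Nat.nth Nat.Prime N : ℕ) : ℝ)))))))))).exists
  have hX0 : 0 < X := by linarith
  have hlogX : 0 < Real.log X := Real.log_pos (by linarith)
  have hhX : 0 < h X := lt_of_lt_of_le hlogX hx3
  obtain ⟨H, hH⟩ : ∃ H, H = Λ * h X := ⟨_, rfl⟩
  have hH0 : 0 < H := by rw [hH]; positivity
  have hH1 : Real.log X ≤ H := by
    rw [hH]
    have h1 := mul_le_mul_of_nonneg_right hΛ1 hhX.le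
    linarith
  have hH2 : H ≤ c * f X := by rw [hH]; exact hx1
  have hH3 : H ≤ X := by
    refine hH2.trans (le_trans ?_ hx6)
    exact mul_le_mul_of_nonneg_left hx5 hc.le
  have hcount := hX₀ X ((le_max_left _ _).trans hx7) H hH1 hH2 b hb01
  obtain ⟨n, hn1, hn2, hn3, J, hJ1, hJ2⟩ : {n : ℕ | X < n ∧ (n : ℝ) ≤ 4 * X ∧
        (∀ p : ℕ, p.Prime → (n : ℝ) ≤ p → (p : ℝ) ≤ n + H →
          p ≡ a [MOD q] ∧ ∃ i, |((p : ℝ) - n) / H - b i| ≤ δ) ∧
        ∃ J : Finset (Fin (s * M)), η * ((s * M : ℕ) : ℝ) ≤ J.card ∧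
          ∀ i ∈ J, ∃ p : ℕ, p.Prime ∧ p ≡ a [MOD q] ∧ |((p : ℝ) - n) / H - b i| ≤ δ}.Nonempty := by
    by_contra hemp
    rw [Set.not_nonempty_iff_eq_empty] at hemp
    rw [hemp, Set.ncard_empty, Nat.cast_zero] at hcount
    have : 0 < X ^ (7 / 8 : ℝ) := Real.rpow_pos_of_pos hX0 _
    linarith
  rw [hb] at hn3 hJ2
  push_cast at hJ1
  obtain ⟨i, j, hij, p, p', hp, hp', hpn, hpn', hpp, hcard, hdist⟩ := window (k := k) hM1 hs hsM hθ hΛ hδ
    (by linarith) (by linarith) hH0 hn3 J hJ1 hJ2 (fun i j => r ((j : ℕ) - i))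
  obtain ⟨l, hl⟩ : ∃ l : ℕ, l = (j : ℕ) - i := ⟨_, rfl⟩
  have hij' : (i : ℕ) < j := hij
  have hl1 : 1 ≤ l := by omega
  have hl2 : l ≤ s := by
    have := j.2
    omega
  have hlR : ((j : ℕ) : ℝ) - ((i : ℕ) : ℝ) = l := by
    rw [hl, Nat.cast_sub hij'.le]
  rw [← hl] at hcard
  rw [hlR] at hdist
  obtain ⟨hnth1, hnth2⟩ := nth_of_count p p' (r l) hp hp' hpp hcard
  obtain ⟨n₀, hn₀⟩ : ∃ n₀, n₀ = Nat.count Nat.Prime p := ⟨_, rfl⟩
  rw [← hn₀] at hnth1 hnth2
  have hinf : (Set.ofPred Nat.Prime).Infinite := Nat.infinite_setOfPred_prime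
  have hXp : X < p := lt_of_lt_of_le hn1 hpn
  have hn₀N : N ≤ n₀ := by
    by_contra hlt
    push Not at hlt
    have h1 := (Nat.nth_strictMono hinf) hlt
    rw [hnth1] at h1
    have h2 : (p : ℝ) < Nat.nth Nat.Prime N := by exact_mod_cast h1
    linarith
  refine hN n₀ hn₀N l (mem_Icc.2 ⟨hl1, hl2⟩) ⟨fun i' hi' => ?_, ?_⟩
  · have h1 : p ≤ Nat.nth Nat.Prime (n₀ + i') := by
      rw [← hnth1]
      exact (Nat.nth_strictMono hinf).monotone (Nat.le_add_right _ _)
    have h2 : Nat.nth Nat.Prime (n₀ + i') ≤ p' := by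
      rw [← hnth2]
      exact (Nat.nth_strictMono hinf).monotone (by omega)
    have h1' : (p : ℝ) ≤ (Nat.nth Nat.Prime (n₀ + i') : ℕ) := by exact_mod_cast h1
    have h2' : ((Nat.nth Nat.Prime (n₀ + i') : ℕ) : ℝ) ≤ p' := by exact_mod_cast h2
    exact (hn3 _ (Nat.nth_mem_of_infinite hinf _) (by linarith) (by linarith)).1
  · rw [hnth1, hnth2]
    have hp4 : (p : ℝ) ≤ 5 * X := by
      have h1 : (p : ℝ) < p' := by exact_mod_cast hpp
      linarith
    have hx7' : x₀ ≤ X := (le_max_right _ _).trans hx7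
    have hhp1 : h X ≤ h p := hmono hx7' (by show x₀ ≤ (p : ℝ); linarith) hXp.le
    have hhp2 : h p ≤ h (5 * X) := hmono (by show x₀ ≤ (p : ℝ); linarith)
      (by show x₀ ≤ 5 * X; linarith) hp4
    have hhp0 : 0 < h p := lt_of_lt_of_le hhX hhp1
    rw [div_lt_iff₀ hhX] at hx2
    obtain ⟨g, hg⟩ : ∃ g : ℝ, g = (p' : ℝ) - p := ⟨_, rfl⟩
    rw [← hg] at hdist ⊢
    have hg0 : 0 < g := by
      have h1 : (p : ℝ) < p' := by exact_mod_cast hpp
      rw [hg]; linarith
    have hgH : g ≤ H := by rw [hg]; linarith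
    have h1 : |g / h X - l * t| ≤ e / 8 := by
      have h2 : g / h X - l * t = (g / H - l * t / Λ) * Λ := by
        rw [hH]
        field_simp
      rw [h2, abs_mul, abs_of_pos hΛ0]
      calc |g / H - l * t / Λ| * Λ ≤ (M * θ / Λ + 2 * δ) * Λ := mul_le_mul_of_nonneg_right hdist hΛ0.le
        _ = M * θ + 2 * (δ * Λ) := by
          rw [add_mul, div_mul_cancel₀ _ hΛ0.ne']
          ring
        _ ≤ e / 8 := by rw [hδΛ]; linarith
    have h2 : g / h p ≤ g / h X := div_le_div_of_nonneg_left hg0.le hhX hhp1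
    have h3 : g / h X - g / h p ≤ e / 8 := by
      have h4 : g / h X - g / h p = g * (h p - h X) / (h X * h p) := by
        field_simp
      rw [h4, div_le_iff₀ (by positivity)]
      have h5 : h p - h X ≤ e / (8 * Λ) * h X := by
        have h6 : (1 + e / (8 * Λ)) * h X = h X + e / (8 * Λ) * h X := by ring
        linarith
      calc g * (h p - h X) ≤ (Λ * h X) * (e / (8 * Λ) * h X) := by
            rw [← hH]
            exact mul_le_mul hgH h5 (by linarith) hH0.le
        _ = e / 8 * (h X * h X) := by field_simp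
        _ ≤ e / 8 * (h X * h p) := by
            apply mul_le_mul_of_nonneg_left _ (by positivity)
            exact mul_le_mul_of_nonneg_left hhp1 hhX.le
    have h6 := hel l hl2
    rw [abs_le] at h1
    rw [abs_lt]
    constructor <;> linarith [h1.1, h1.2]

/-- the set of the common limit points -/
def Com (h : ℝ → ℝ) (q a : ℕ) : Set ℝ := {v | ∀ r, LimPt h q a r v}

theorem isClosed_le (h : ℝ → ℝ) (q a k : ℕ) : IsClosed {v | ∀ r ≤ k, LimPt h q a r v} := by
  have : {v | ∀ r ≤ k, LimPt h q a r v} = ⋂ r, ⋂ (_ : r ≤ k), {v | LimPt h q a r v} := by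
    ext v
    simp
  rw [this]
  exact isClosed_iInter fun r => isClosed_iInter fun _ => isClosed_limPt h q a r

theorem tendsto_log_ratio {g : ℝ → ℝ} (hg : Tendsto g atTop atTop)
    (h : Tendsto (fun x => g (5 * x) / g x) atTop (𝓝 1)) :
    Tendsto (fun x => Real.log (g (5 * x)) / Real.log (g x)) atTop (𝓝 1) := by
  have h5 : Tendsto (fun x : ℝ => 5 * x) atTop atTop := tendsto_id.const_mul_atTop (by norm_num)
  have h1 : Tendsto (fun x => Real.log (g (5 * x) / g x)) atTop (𝓝 0) := by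
    have := (Real.continuousAt_log (one_ne_zero)).tendsto.comp h
    rwa [Real.log_one] at this
  have h2 : Tendsto (fun x => Real.log (g x)) atTop atTop := Real.tendsto_log_atTop.comp hg
  have h3 : Tendsto (fun x => 1 + Real.log (g (5 * x) / g x) / Real.log (g x)) atTop (𝓝 (1 + 0)) :=
    tendsto_const_nhds.add (h1.div_atTop h2)
  rw [add_zero] at h3
  refine h3.congr' ?_
  filter_upwards [hg.eventually_gt_atTop 1, (hg.comp h5).eventually_gt_atTop 1] with x a1 a2
  simp only [Function.comp] at a2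
  have a3 : 0 < Real.log (g x) := Real.log_pos a1
  rw [Real.log_div (by linarith) (by linarith)]
  field_simp
  ring

theorem f_slow : Tendsto (fun x => f (5 * x) / f x) atTop (𝓝 1) := by
  have h1 := Real.tendsto_log_atTop
  have h2 := h1.comp h1
  have h3 := h1.comp h2
  have h4 := h1.comp h3
  have r0 : Tendsto (fun x : ℝ => Real.log (5 * x) / Real.log x) atTop (𝓝 1) := by
    have a1 : Tendsto (fun x : ℝ => 1 + Real.log 5 / Real.log x) atTop (𝓝 (1 + 0)) :=
      tendsto_const_nhds.add (tendsto_const_nhds.div_atTop h1)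
    rw [add_zero] at a1
    refine a1.congr' ?_
    filter_upwards [eventually_gt_atTop (1 : ℝ)] with x hx
    have := Real.log_pos hx
    rw [Real.log_mul (by norm_num) (by linarith)]
    field_simp
    ring
  have r1 := tendsto_log_ratio (g := Real.log) h1 r0
  have r2 := tendsto_log_ratio (g := fun x => Real.log (Real.log x)) h2 r1
  have r3 := tendsto_log_ratio (g := fun x => Real.log (Real.log (Real.log x))) h3 r2
  have h := ((r0.mul (r1.pow 2)).mul r3).div (r2.pow 2) (by norm_num)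
  norm_num at h
  have h5 : Tendsto (fun x : ℝ => 5 * x) atTop atTop := tendsto_id.const_mul_atTop (by norm_num)
  refine h.congr' ?_
  filter_upwards [h1.eventually_gt_atTop 0, h2.eventually_gt_atTop 0, h3.eventually_gt_atTop 0,
    h4.eventually_gt_atTop 0, (h3.comp h5).eventually_gt_atTop 0] with x a1 a2 a3 a4 a5
  simp only [Function.comp] at a2 a3 a4 a5
  rw [Pi.div_apply]
  unfold f
  field_simp

theorem f_mono : ∃ x₀ : ℝ, MonotoneOn f (Set.Ici x₀) := by
  have h1 := Real.tendsto_log_atTop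
  have h2 := h1.comp h1
  have h3 := h1.comp h2
  have h4 := h1.comp h3
  obtain ⟨x₀, hx₀⟩ := eventually_atTop.1 ((eventually_gt_atTop (0 : ℝ)).and ((h1.eventually_gt_atTop 0).and
    ((h2.eventually_gt_atTop (Real.exp 1)).and ((h3.eventually_gt_atTop 0).and
      (h4.eventually_gt_atTop 0)))))
  refine ⟨x₀, fun x hx y hy hxy => ?_⟩
  obtain ⟨a0, a1, a2, a3, a4⟩ := hx₀ x hx
  obtain ⟨b0, b1, b2, b3, b4⟩ := hx₀ y hy
  simp only [Function.comp] at a2 a3 a4 b2 b3 b4
  have c1 : Real.log x ≤ Real.log y := Real.log_le_log a0 hxy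
  have c2 : Real.log (Real.log x) ≤ Real.log (Real.log y) := Real.log_le_log a1 c1
  have a2' : 0 < Real.log (Real.log x) := lt_trans (Real.exp_pos 1) a2
  have b2' : 0 < Real.log (Real.log y) := lt_trans (Real.exp_pos 1) b2
  have c3 : Real.log (Real.log (Real.log x)) ≤ Real.log (Real.log (Real.log y)) :=
    Real.log_le_log a2' c2
  have c4 : Real.log (Real.log (Real.log (Real.log x))) ≤ Real.log (Real.log (Real.log (Real.log y))) :=
    Real.log_le_log a3 c3
  have c5 : Real.log (Real.log x) / Real.log (Real.log (Real.log x)) ≤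
      Real.log (Real.log y) / Real.log (Real.log (Real.log y)) := by
    have := Real.log_div_self_antitoneOn (show Real.log (Real.log x) ∈ {x | Real.exp 1 ≤ x} from a2.le)
      (show Real.log (Real.log y) ∈ {x | Real.exp 1 ≤ x} from b2.le) c2
    simp only at this
    rw [div_le_div_iff₀ b2' a2'] at this
    rw [div_le_div_iff₀ a3 b3]
    linarith
  have e : ∀ z, f z = Real.log z * (Real.log (Real.log z) / Real.log (Real.log (Real.log z))) ^ 2 *
      Real.log (Real.log (Real.log (Real.log z))) := by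
    intro z
    unfold f
    rw [div_pow]
    ring
  rw [e, e]
  have c6 : 0 ≤ Real.log (Real.log x) / Real.log (Real.log (Real.log x)) := by positivity
  exact mul_le_mul (mul_le_mul c1 (pow_le_pow_left₀ c6 c5 2) (by positivity) b1.le) c4 a4.le (by positivity)

theorem f_ge (A : ℝ) : ∀ᶠ x : ℝ in atTop, A * Real.log x ≤ f x := by
  have h1 := Real.tendsto_log_atTop
  have h2 := h1.comp h1
  have h3 := h1.comp h2
  have h4 := h1.comp h3
  filter_upwards [h1.eventually_gt_atTop 0, h2.eventually_gt_atTop 0, h3.eventually_gt_atTop 0,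
    h4.eventually_ge_atTop (max A 0)] with x a1 a2 a3 a4
  simp only [Function.comp] at a2 a3 a4
  have b2 : Real.log (Real.log (Real.log x)) ≤ Real.log (Real.log x) := Real.log_le_self a2.le
  have e : f x = Real.log x * (Real.log (Real.log x) / Real.log (Real.log (Real.log x))) ^ 2 *
      Real.log (Real.log (Real.log (Real.log x))) := by
    unfold f
    rw [div_pow]
    ring
  have c : 1 ≤ (Real.log (Real.log x) / Real.log (Real.log (Real.log x))) ^ 2 :=
    one_le_pow₀ (by rwa [one_le_div a3])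
  have h5 : A ≤ Real.log (Real.log (Real.log (Real.log x))) := (le_max_left _ _).trans a4
  have h6 : 0 ≤ Real.log (Real.log (Real.log (Real.log x))) := (le_max_right _ _).trans a4
  rw [e]
  calc A * Real.log x ≤ Real.log (Real.log (Real.log (Real.log x))) * Real.log x :=
        mul_le_mul_of_nonneg_right h5 a1.le
    _ = Real.log x * 1 * Real.log (Real.log (Real.log (Real.log x))) := by ring
    _ ≤ _ := mul_le_mul_of_nonneg_right (mul_le_mul_of_nonneg_left c a1.le) h6

theorem scale_f (κ : ℝ) (hκ : 0 < κ) : Scale (fun x => κ * f x) where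
  mono := by
    obtain ⟨x₀, hx₀⟩ := f_mono
    exact ⟨x₀, fun x hx y hy hxy => mul_le_mul_of_nonneg_left (hx₀ hx hy hxy) hκ.le⟩
  log_le := by
    filter_upwards [f_ge (1 / κ)] with x hx
    calc Real.log x = κ * (1 / κ * Real.log x) := by field_simp
      _ ≤ κ * f x := mul_le_mul_of_nonneg_left hx hκ.le
  slow := by
    refine f_slow.congr fun x => ?_
    rw [mul_div_mul_left _ _ hκ.ne']

theorem limPt_scale (h : ℝ → ℝ) (κ : ℝ) (hκ : 0 < κ) (q a r : ℕ) (v : ℝ)
    (hv : LimPt (fun x => κ * h x) q a r v) : LimPt h q a r (κ * v) := by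
  intro ε hε
  refine (hv (ε / κ) (by positivity)).mono ?_
  rintro n ⟨h1, h2⟩
  refine ⟨h1, ?_⟩
  have h3 : ((Nat.nth Nat.Prime (n + r + 1) : ℝ) - Nat.nth Nat.Prime n) / h (Nat.nth Nat.Prime n) - κ * v =
      κ * (((Nat.nth Nat.Prime (n + r + 1) : ℝ) - Nat.nth Nat.Prime n) /
        (κ * h (Nat.nth Nat.Prime n)) - v) := by
    rw [mul_sub]
    congr 1
    rw [mul_div_assoc', mul_div_mul_left _ _ hκ.ne']
  rw [h3, abs_mul, abs_of_pos hκ]
  rw [lt_div_iff₀ hκ] at h2
  linarith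

theorem main_of {η : ℝ} (hη : 0 < η) (hP : Points η) : ∃ c : ℝ, 0 < c ∧
    (∀ h : ℝ → ℝ, Scale h → Tendsto (fun x => h x / f x) atTop (𝓝 0) →
      ∀ q a : ℕ, Squarefree q → a.Coprime q → ∀ T : ℝ, 0 < T →
      ENNReal.ofReal (c * T) ≤ MeasureTheory.volume ({v | ∀ r, LimPt h q a r v} ∩ Set.Icc 0 T)) ∧
    (∀ k : ℕ, ∃ T₀ : ℝ, 0 < T₀ ∧ ∀ q a : ℕ, Squarefree q → a.Coprime q → ∀ T : ℝ, 0 < T → T ≤ T₀ →
      ENNReal.ofReal (c * T) ≤
        MeasureTheory.volume ({v | ∀ r ≤ k, LimPt f q a r v} ∩ Set.Icc 0 T)) := by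
  obtain ⟨s, hs⟩ := exists_nat_gt (1 / η)
  have hs' : 1 < η * s := by
    rw [div_lt_iff₀ hη] at hs
    linarith
  have hs0 : (0 : ℝ) < s := lt_trans (by positivity) hs
  have hs1 : 1 ≤ s := by exact_mod_cast hs0
  refine ⟨1 / (s : ℝ) ^ 2, by positivity, fun h hh hsmall q a hq ha T hT => ?_, fun k => ?_⟩
  · obtain ⟨S, hS⟩ : ∃ S : ℕ → Set ℝ, S = fun k => {v | ∀ r ≤ k, LimPt h q a r v} ∩ Set.Icc 0 T :=
      ⟨_, rfl⟩
    have hmeas : ∀ k, MeasurableSet (S k) := by
      intro k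
      rw [hS]
      exact (isClosed_le h q a k).measurableSet.inter measurableSet_Icc
    have hanti : Antitone S := by
      intro k k' hk v hv
      rw [hS] at hv ⊢
      exact ⟨fun r hr => hv.1 r (hr.trans hk), hv.2⟩
    have hlow : ∀ k, ENNReal.ofReal (1 / (s : ℝ) ^ 2 * T) ≤ MeasureTheory.volume (S k) := by
      intro k
      have h1 : 1 / (s : ℝ) ^ 2 * T = T / (s : ℝ) ^ 2 := by ring
      rw [h1, hS]
      refine meas_of_multiples hs1 _ T hT (fun t ht _ => ?_)
      obtain ⟨c, hc, hk⟩ := key hη hP s hs' k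
      refine hk h hh t ht ?_ q a hq ha
      have hΛ : 0 < s * t + 1 := by positivity
      filter_upwards [hsmall.eventually_lt_const (show 0 < c / (s * t + 1) by positivity), f_pos]
        with x hx1 hx2
      rw [div_lt_div_iff₀ hx2 hΛ] at hx1
      linarith
    have hlim := MeasureTheory.tendsto_measure_iInter_atTop (μ := MeasureTheory.volume)
      (fun k => (hmeas k).nullMeasurableSet) hanti ⟨0, by
        refine ne_top_of_le_ne_top ?_ (MeasureTheory.measure_mono (show S 0 ⊆ Set.Icc 0 T from ?_))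
        · rw [Real.volume_Icc]
          exact ENNReal.ofReal_ne_top
        · rw [hS]
          exact Set.inter_subset_right⟩
    have heq : (⋂ k, S k) = {v | ∀ r, LimPt h q a r v} ∩ Set.Icc 0 T := by
      ext v
      rw [hS, Set.mem_iInter]
      constructor
      · intro hv
        exact ⟨fun r => (hv r).1 r le_rfl, (hv 0).2⟩
      · intro hv k
        exact ⟨fun r _ => hv.1 r, hv.2⟩
    rw [heq] at hlim
    exact ge_of_tendsto' hlim hlow
  · obtain ⟨c, hc, hk⟩ := key hη hP s hs' k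
    refine ⟨c / 2, by positivity, fun q a hq ha T hT hTc => ?_⟩
    have h1 : 1 / (s : ℝ) ^ 2 * T = T / (s : ℝ) ^ 2 := by ring
    rw [h1]
    refine meas_of_multiples hs1 _ T hT (fun t ht ht2 => ?_)
    obtain ⟨l, hl1, hl2, hl3⟩ := hk (fun x => T * f x) (scale_f T hT) (t / T) (by positivity) (by
      filter_upwards [f_pos] with x hx
      have h2 : s * (t / T) ≤ 1 := by
        rw [← mul_div_assoc, div_le_one hT]
        rw [le_div_iff₀ hs0] at ht2
        linarith
      calc (s * (t / T) + 1) * (T * f x) ≤ (1 + 1) * (T * f x) := by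
            apply mul_le_mul_of_nonneg_right (by linarith) (by positivity)
        _ = 2 * T * f x := by ring
        _ ≤ c * f x := mul_le_mul_of_nonneg_right (by linarith) hx.le) q a hq ha
    refine ⟨l, hl1, hl2, fun r hr => ?_⟩
    have h2 := limPt_scale f T hT q a r _ (hl3 r hr)
    have h3 : T * (l * (t / T)) = l * t := by field_simp
    rwa [h3] at h2

end Pool.Agent.J6H13.LR
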