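import Pool.Agent.J6H13.CP.Sel

/-! Two elements of different groups with a prescribed number of elements in between. -/

set_option autoImplicit false

namespace Pool.Agent.J6H13.LR

open Finset
open Pool.Agent.J6H13.CP (grow)

variable {s : ℕ}

/-- two neighbouring nonempty groups with many elements -/
theorem neighbours {k : ℕ} (P : Finset ℕ) (gr : ℕ → Fin s) (hP : s * (k + 1) ≤ P.card)
    (htwo : ∃ u ∈ P, ∃ v ∈ P, gr u < gr v) : ∃ i j : Fin s, i < j ∧ (∃ u ∈ P, gr u = i) ∧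
      (∃ u ∈ P, gr u = j) ∧ (∀ u ∈ P, ¬ (i < gr u ∧ gr u < j)) ∧
      k + 2 ≤ (P.filter (fun u => gr u = i ∨ gr u = j)).card := by
  classical
  obtain ⟨u₀, -⟩ := id htwo
  obtain ⟨i₀, -, hi₀⟩ : ∃ i₀ ∈ (univ : Finset (Fin s)), k + 1 ≤ (P.filter (fun u => gr u = i₀)).card := by
    apply exists_le_card_fiber_of_mul_le_card_of_maps_to (fun _ _ => mem_univ _) ⟨gr u₀, mem_univ _⟩
    rw [card_univ, Fintype.card_fin]
    exact hP
  have hsum : ∀ i j : Fin s, i ≠ j → (∃ u ∈ P, gr u = j) → k + 1 ≤ (P.filter (fun u => gr u = i)).card →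
      k + 2 ≤ (P.filter (fun u => gr u = i ∨ gr u = j)).card := by
    rintro i j hij ⟨u, hu, hu2⟩ h
    rw [filter_or, card_union_of_disjoint]
    · have h1 : 0 < (P.filter (fun u => gr u = j)).card := card_pos.2 ⟨u, mem_filter.2 ⟨hu, hu2⟩⟩
      omega
    · rw [disjoint_filter]
      intro x _ h1 h2
      exact hij (h1.symm.trans h2)
  have hne : ∃ u ∈ P, gr u = i₀ := by
    obtain ⟨u, hu⟩ := card_pos.1 (show 0 < (P.filter (fun u => gr u = i₀)).card by omega)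
    exact ⟨u, (mem_filter.1 hu).1, (mem_filter.1 hu).2⟩
  obtain ⟨v, hv, hv2⟩ : ∃ v ∈ P, gr v ≠ i₀ := by
    obtain ⟨u, hu, v, hv, h⟩ := htwo
    by_cases h1 : gr u = i₀
    · exact ⟨v, hv, fun h2 => by rw [h1, h2] at h; exact lt_irrefl _ h⟩
    · exact ⟨u, hu, h1⟩
  rcases lt_or_gt_of_ne hv2 with h | h
  · obtain ⟨w, hw, hwmax⟩ := exists_max_image (P.filter (fun u => gr u < i₀)) gr
      ⟨v, mem_filter.2 ⟨hv, h⟩⟩
    obtain ⟨hw1, hw2⟩ := mem_filter.1 hw
    refine ⟨gr w, i₀, hw2, ⟨w, hw1, rfl⟩, hne, ?_, ?_⟩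
    · rintro u hu ⟨h1, h2⟩
      have := hwmax u (mem_filter.2 ⟨hu, h2⟩)
      exact absurd h1 (not_lt.2 this)
    · have h1 := hsum i₀ (gr w) hw2.ne' ⟨w, hw1, rfl⟩ hi₀
      refine h1.trans (card_le_card ?_)
      intro x hx
      obtain ⟨hx1, hx2⟩ := mem_filter.1 hx
      exact mem_filter.2 ⟨hx1, hx2.symm⟩
  · obtain ⟨w, hw, hwmin⟩ := exists_min_image (P.filter (fun u => i₀ < gr u)) gr
      ⟨v, mem_filter.2 ⟨hv, h⟩⟩
    obtain ⟨hw1, hw2⟩ := mem_filter.1 hw
    refine ⟨i₀, gr w, hw2, hne, ⟨w, hw1, rfl⟩, ?_, ?_⟩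
    · rintro u hu ⟨h1, h2⟩
      have := hwmin u (mem_filter.2 ⟨hu, h1⟩)
      exact absurd h2 (not_lt.2 this)
    · exact hsum i₀ (gr w) hw2.ne ⟨w, hw1, rfl⟩ hi₀

/-- two elements of different groups with the number of elements in between which is prescribed for
their groups -/
theorem pair_between {k : ℕ} (P : Finset ℕ) (gr : ℕ → Fin s)
    (hcross : ∀ u ∈ P, ∀ v ∈ P, gr u < gr v → u < v) (hP : s * (k + 1) ≤ P.card)
    (htwo : ∃ u ∈ P, ∃ v ∈ P, gr u < gr v) (col : Fin s → Fin s → Fin (k + 1)) :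
    ∃ p ∈ P, ∃ p' ∈ P, gr p < gr p' ∧
      (P.filter (fun u => p < u ∧ u < p')).card = (col (gr p) (gr p') : ℕ) := by
  classical
  obtain ⟨i, j, hij, hi, hj, hbet, hcard⟩ := neighbours P gr hP htwo
  obtain ⟨r, hr⟩ : ∃ r : ℕ, r = (col i j : ℕ) := ⟨_, rfl⟩
  have hrk : r ≤ k := by rw [hr]; exact Nat.lt_succ_iff.1 (col i j).2
  obtain ⟨P', hP'⟩ : ∃ P', P' = P.filter (fun u => gr u = i ∨ gr u = j) := ⟨_, rfl⟩
  rw [← hP'] at hcard
  have hP'P : P' ⊆ P := by rw [hP']; exact filter_subset _ _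
  have hP'g : ∀ u ∈ P', gr u = i ∨ gr u = j := fun u hu => by
    rw [hP'] at hu
    exact (mem_filter.1 hu).2
  obtain ⟨a, ha, hamax⟩ := exists_max_image (P.filter (fun u => gr u = i)) id (by
    obtain ⟨u, hu, hu2⟩ := hi
    exact ⟨u, mem_filter.2 ⟨hu, hu2⟩⟩)
  obtain ⟨b, hb, hbmin⟩ := exists_min_image (P.filter (fun u => gr u = j)) id (by
    obtain ⟨u, hu, hu2⟩ := hj
    exact ⟨u, mem_filter.2 ⟨hu, hu2⟩⟩)
  simp only [id] at hamax hbmin
  obtain ⟨ha1, ha2⟩ := mem_filter.1 ha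
  obtain ⟨hb1, hb2⟩ := mem_filter.1 hb
  have hab : a < b := hcross a ha1 b hb1 (by rw [ha2, hb2]; exact hij)
  have haP' : a ∈ P' := by rw [hP']; exact mem_filter.2 ⟨ha1, Or.inl ha2⟩
  have hbP' : b ∈ P' := by rw [hP']; exact mem_filter.2 ⟨hb1, Or.inr hb2⟩
  obtain ⟨W, hWP', hWc, hWab, hWconv⟩ := grow P' id Function.injective_id {a, b}
    (insert_subset haP' (singleton_subset_iff.2 hbP')) ⟨a, mem_insert_self _ _⟩ (by
      rintro u hu ⟨w, hw, hwu⟩ ⟨w', hw', huw⟩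
      simp only [id] at hwu huw
      have h1 : a ≤ u := by
        rcases mem_insert.1 hw with rfl | hw
        · exact hwu
        · rw [mem_singleton.1 hw] at hwu; omega
      have h2 : u ≤ b := by
        rcases mem_insert.1 hw' with rfl | hw'
        · omega
        · rw [mem_singleton.1 hw'] at huw; exact huw
      rcases hP'g u hu with h3 | h3
      · have h4 := hamax u (mem_filter.2 ⟨hP'P hu, h3⟩)
        rw [le_antisymm h1 h4]
        exact mem_insert_self _ _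
      · have h4 := hbmin u (mem_filter.2 ⟨hP'P hu, h3⟩)
        rw [le_antisymm h4 h2]
        exact mem_insert_of_mem (mem_singleton_self _)) (r + 2) (by
      rw [card_pair hab.ne]; omega) (by omega)
  have haW : a ∈ W := hWab (mem_insert_self _ _)
  have hbW : b ∈ W := hWab (mem_insert_of_mem (mem_singleton_self _))
  have hWP : W ⊆ P := hWP'.trans hP'P
  have hWconvP : ∀ u ∈ P, (∃ w ∈ W, w ≤ u) → (∃ w ∈ W, u ≤ w) → u ∈ W := by
    rintro u hu ⟨w, hw, hwu⟩ ⟨w', hw', huw⟩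
    refine hWconv u ?_ ⟨w, hw, hwu⟩ ⟨w', hw', huw⟩
    rw [hP']
    refine mem_filter.2 ⟨hu, ?_⟩
    have h1 : i ≤ gr u := by
      by_contra hcon
      push Not at hcon
      have h2 : i ≤ gr w := by
        rcases hP'g w (hWP' hw) with h | h
        · exact h.ge
        · rw [h]; exact hij.le
      have h3 := hcross u hu w (hWP hw) (lt_of_lt_of_le hcon h2)
      omega
    have h2 : gr u ≤ j := by
      by_contra hcon
      push Not at hcon
      have h2 : gr w' ≤ j := by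
        rcases hP'g w' (hWP' hw') with h | h
        · rw [h]; exact hij.le
        · exact h.le
      have h3 := hcross w' (hWP hw') u hu (lt_of_le_of_lt h2 hcon)
      omega
    rcases h1.eq_or_lt with h3 | h3
    · exact Or.inl h3.symm
    · rcases h2.eq_or_lt with h4 | h4
      · exact Or.inr h4
      · exact absurd ⟨h3, h4⟩ (hbet u hu)
  obtain ⟨p, hp, hpmin⟩ := exists_min_image W id ⟨a, haW⟩
  obtain ⟨p', hp', hpmax⟩ := exists_max_image W id ⟨a, haW⟩
  simp only [id] at hpmin hpmax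
  have hpi : gr p = i := by
    rcases hP'g p (hWP' hp) with h | h
    · exact h
    · exfalso
      have h1 := hcross a ha1 p (hWP hp) (by rw [ha2, h]; exact hij)
      have h2 := hpmin a haW
      omega
  have hpj : gr p' = j := by
    rcases hP'g p' (hWP' hp') with h | h
    · exfalso
      have h1 := hcross p' (hWP hp') b hb1 (by rw [hb2, h]; exact hij)
      have h2 := hpmax b hbW
      omega
    · exact h
  have hpp : p < p' := hcross p (hWP hp) p' (hWP hp') (by rw [hpi, hpj]; exact hij)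
  refine ⟨p, hWP hp, p', hWP hp', by rw [hpi, hpj]; exact hij, ?_⟩
  rw [hpi, hpj, ← hr]
  have h1 : P.filter (fun u => p < u ∧ u < p') = (W.erase p).erase p' := by
    ext u
    rw [mem_filter, mem_erase, mem_erase]
    constructor
    · rintro ⟨h2, h3, h4⟩
      exact ⟨h4.ne, h3.ne', hWconvP u h2 ⟨p, hp, h3.le⟩ ⟨p', hp', h4.le⟩⟩
    · rintro ⟨h2, h3, h4⟩
      have h6 := hpmin u h4
      have h7 := hpmax u h4
      exact ⟨hWP h4, by omega, by omega⟩
  rw [h1, card_erase_of_mem (mem_erase.2 ⟨hpp.ne', hp'⟩), card_erase_of_mem hp, hWc]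
  omega

/-- a measurable set which contains one of the first `s - 1` multiples of every `t ≤ T / s` -/
theorem meas_of_multiples {s : ℕ} (hs : 1 ≤ s) (S : Set ℝ) (T : ℝ) (hT : 0 < T)
    (h : ∀ t : ℝ, 0 < t → t ≤ T / s → ∃ l : ℕ, 1 ≤ l ∧ l ≤ s ∧ (l : ℝ) * t ∈ S) :
    ENNReal.ofReal (T / (s : ℝ) ^ 2) ≤ MeasureTheory.volume (S ∩ Set.Icc 0 T) := by
  have hs0 : (0 : ℝ) < s := by exact_mod_cast hs
  have hcov : Set.Ioc (0 : ℝ) (T / s) ⊆ ⋃ l ∈ Icc 1 s, (fun t : ℝ => (l : ℝ) * t) ⁻¹' (S ∩ Set.Icc 0 T) := by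
    intro t ht
    obtain ⟨l, hl1, hl2, hl3⟩ := h t ht.1 ht.2
    refine Set.mem_iUnion₂.2 ⟨l, mem_Icc.2 ⟨hl1, hl2⟩, hl3, ?_, ?_⟩
    · have := ht.1
      positivity
    · have h1 : (l : ℝ) ≤ s := by exact_mod_cast hl2
      calc (l : ℝ) * t ≤ s * (T / s) := mul_le_mul h1 ht.2 ht.1.le hs0.le
        _ = T := by field_simp
  have h1 : MeasureTheory.volume (Set.Ioc (0 : ℝ) (T / s)) ≤
      ∑ l ∈ Icc 1 s, MeasureTheory.volume ((fun t : ℝ => (l : ℝ) * t) ⁻¹' (S ∩ Set.Icc 0 T)) :=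
    (MeasureTheory.measure_mono hcov).trans (MeasureTheory.measure_biUnion_finset_le _ _)
  have h2 : ∀ l ∈ Icc 1 s, MeasureTheory.volume ((fun t : ℝ => (l : ℝ) * t) ⁻¹' (S ∩ Set.Icc 0 T)) ≤
      MeasureTheory.volume (S ∩ Set.Icc 0 T) := by
    intro l hl
    have hl1 : (1 : ℝ) ≤ l := by exact_mod_cast (mem_Icc.1 hl).1
    have h3 : (fun t : ℝ => (l : ℝ) * t) = ((l : ℝ) * ·) := rfl
    rw [h3, Real.volume_preimage_mul_left (by linarith)]
    calc ENNReal.ofReal |(l : ℝ)⁻¹| * MeasureTheory.volume (S ∩ Set.Icc 0 T)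
        ≤ 1 * MeasureTheory.volume (S ∩ Set.Icc 0 T) := by
          gcongr
          rw [ENNReal.ofReal_le_one, abs_of_pos (by positivity)]
          exact inv_le_one_of_one_le₀ hl1
      _ = _ := one_mul _
  have h3 : ENNReal.ofReal (T / s) ≤ (s : ENNReal) * MeasureTheory.volume (S ∩ Set.Icc 0 T) := by
    rw [Real.volume_Ioc, sub_zero] at h1
    refine h1.trans ((sum_le_sum h2).trans ?_)
    rw [sum_const, Nat.card_Icc, Nat.add_sub_cancel, nsmul_eq_mul]
  have h4 : T / (s : ℝ) ^ 2 = (T / s) / s := by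
    rw [sq, div_div]
  rw [h4, ENNReal.ofReal_div_of_pos hs0, ENNReal.ofReal_natCast]
  apply ENNReal.div_le_of_le_mul
  rw [mul_comm]
  exact h3

end Pool.Agent.J6H13.LR
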